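import Pool.Agent.H992.SF.Defs

/-!
# An ergodic local limit is asymptotically independent of everything slow
-/

set_option autoImplicit false
open MeasureTheory Filter Topology Complex ProbabilityTheory

namespace Pool.Agent.H385.SF

open Pool.Agent.N661.BR (MW lin shift IsStationary IsErgodic IsRandomWave meas_eval)
open Pool.Agent.H992.LB (eγ ex trig riesz' inner_toL eγ_norm eγ_meas norm_ex meas_ex bd_trig
  meas_trig val val_add val_meas)
open Pool.Agent.H992.SF (S_HC S_ABS)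

/-- the values -/
def Y0 (w : ℂ) (f : MW) : ℝ := f w

theorem Y0_meas (w : ℂ) : Measurable (Y0 w) := meas_eval w

theorem ex_Y0 (τ : ℂ →₀ ℝ) (f : MW) : ex Y0 τ f = eγ τ f := rfl

/-- the values of a function as an additive map -/
noncomputable def vh (f : MW) : (ℂ →₀ ℝ) →+ ℝ :=
  AddMonoidHom.mk' (fun τ => val τ f) fun τ τ' => val_add τ τ' f

/-- the exponential of an additive map -/
noncomputable def E (a : (ℂ →₀ ℝ) →+ ℝ) (τ : ℂ →₀ ℝ) : ℂ := Complex.exp (I * (a τ : ℝ))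

theorem E_vh (f : MW) (τ : ℂ →₀ ℝ) : E (vh f) τ = eγ τ f := rfl

theorem E_norm (a : (ℂ →₀ ℝ) →+ ℝ) (τ : ℂ →₀ ℝ) : ‖E a τ‖ = 1 := by
  unfold E
  rw [mul_comm, Complex.norm_exp_ofReal_mul_I]

theorem E_zero (a : (ℂ →₀ ℝ) →+ ℝ) : E a 0 = 1 := by
  unfold E
  rw [map_zero, Complex.ofReal_zero, mul_zero, Complex.exp_zero]

theorem E_sub (a : (ℂ →₀ ℝ) →+ ℝ) (τ τ' : ℂ →₀ ℝ) :
    E a (τ - τ') = E a τ * (starRingEnd ℂ) (E a τ') := by
  unfold E
  rw [← Complex.exp_conj, map_mul, Complex.conj_I, Complex.conj_ofReal, ← Complex.exp_add, map_sub]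
  congr 1
  push_cast
  ring

/-- a trigonometric sum -/
noncomputable def T (c : (ℂ →₀ ℝ) →₀ ℂ) (a : (ℂ →₀ ℝ) →+ ℝ) : ℂ := c.sum fun τ z => z * E a τ

theorem T_vh (c : (ℂ →₀ ℝ) →₀ ℂ) (f : MW) : T c (vh f) = trig Y0 c f := rfl

theorem T_sq (c : (ℂ →₀ ℝ) →₀ ℂ) (a : (ℂ →₀ ℝ) →+ ℝ) : ((‖T c a‖ ^ 2 : ℝ) : ℂ) =
    ∑ τ ∈ c.support, ∑ τ' ∈ c.support, (c τ * (starRingEnd ℂ) (c τ')) * E a (τ - τ') := by
  rw [← Complex.normSq_eq_norm_sq, ← Complex.mul_conj]
  unfold T Finsupp.sum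
  rw [map_sum, Finset.sum_mul_sum]
  refine Finset.sum_congr rfl fun τ _ => Finset.sum_congr rfl fun τ' _ => ?_
  rw [map_mul, E_sub]
  ring

theorem T_bd (c : (ℂ →₀ ℝ) →₀ ℂ) (a : (ℂ →₀ ℝ) →+ ℝ) : ‖T c a‖ ≤ ∑ τ ∈ c.support, ‖c τ‖ := by
  unfold T Finsupp.sum
  refine (norm_sum_le _ _).trans (Finset.sum_le_sum fun τ _ => ?_)
  rw [norm_mul, E_norm, mul_one]

section gen

variable {X : Type*} [MeasurableSpace X] (ρ : Measure X) [IsProbabilityMeasure ρ]

theorem E_meas {a : X → (ℂ →₀ ℝ) →+ ℝ} (ha : ∀ τ, Measurable fun x => a x τ) (τ : ℂ →₀ ℝ) :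
    Measurable fun x => E (a x) τ := by
  unfold E
  have := ha τ
  fun_prop

theorem T_meas {a : X → (ℂ →₀ ℝ) →+ ℝ} (ha : ∀ τ, Measurable fun x => a x τ)
    (c : (ℂ →₀ ℝ) →₀ ℂ) : Measurable fun x => T c (a x) := by
  unfold T Finsupp.sum
  exact Finset.measurable_sum _ fun τ _ => (E_meas ha τ).const_mul _

theorem E_int {a : X → (ℂ →₀ ℝ) →+ ℝ} (ha : ∀ τ, Measurable fun x => a x τ) (τ : ℂ →₀ ℝ) :
    Integrable (fun x => E (a x) τ) ρ :=
  Integrable.of_bound (E_meas ha τ).aestronglyMeasurable 1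
    (Eventually.of_forall fun x => (E_norm (a x) τ).le)

theorem T_sq_int {a : X → (ℂ →₀ ℝ) →+ ℝ} (ha : ∀ τ, Measurable fun x => a x τ)
    (c : (ℂ →₀ ℝ) →₀ ℂ) : ((∫ x, ‖T c (a x)‖ ^ 2 ∂ρ : ℝ) : ℂ) =
    ∑ τ ∈ c.support, ∑ τ' ∈ c.support, (c τ * (starRingEnd ℂ) (c τ')) *
      ∫ x, E (a x) (τ - τ') ∂ρ := by
  rw [← integral_complex_ofReal]
  simp_rw [T_sq]
  rw [integral_finsetSum _ fun τ _ => integrable_finsetSum _ fun τ' _ =>
    (E_int ρ ha (τ - τ')).const_mul _]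
  refine Finset.sum_congr rfl fun τ _ => ?_
  rw [integral_finsetSum _ fun τ' _ => (E_int ρ ha (τ - τ')).const_mul _]
  refine Finset.sum_congr rfl fun τ' _ => ?_
  rw [integral_const_mul]

/-- Cauchy–Schwarz -/
theorem cs {T B : X → ℂ} (hT : Measurable T) {C M : ℝ} (hC : ∀ x, ‖B x‖ ≤ C)
    (hM : ∀ x, ‖T x‖ ≤ M) : ‖∫ x, T x * B x ∂ρ‖ ^ 2 ≤ C ^ 2 * ∫ x, ‖T x‖ ^ 2 ∂ρ := by
  obtain ⟨x0⟩ : Nonempty X := by
    by_contra hne
    rw [not_nonempty_iff] at hne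
    have h1 := measure_univ (μ := ρ)
    rw [Set.univ_eq_empty_iff.2 hne, measure_empty] at h1
    exact zero_ne_one h1
  have hC0 : 0 ≤ C := (norm_nonneg _).trans (hC x0)
  have hM0 : 0 ≤ M := (norm_nonneg _).trans (hM x0)
  have hi : Integrable (fun f => ‖T f‖) ρ :=
    Integrable.of_bound hT.norm.aestronglyMeasurable M
      (Eventually.of_forall fun f => by rw [norm_norm]; exact hM f)
  have hi2 : Integrable (fun f => ‖T f‖ ^ 2) ρ :=
    Integrable.of_bound (hT.norm.pow_const 2).aestronglyMeasurable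
      (M ^ 2) (Eventually.of_forall fun f => by
        rw [Real.norm_eq_abs, abs_of_nonneg (by positivity)]
        exact pow_le_pow_left₀ (norm_nonneg _) (hM f) 2)
  set m := ∫ f, ‖T f‖ ∂ρ with hm
  have e1 : ‖∫ f, T f * B f ∂ρ‖ ≤ C * m := by
    rw [hm, ← integral_const_mul]
    refine norm_integral_le_of_norm_le (hi.const_mul C) (Eventually.of_forall fun f => ?_)
    rw [norm_mul, mul_comm]
    exact mul_le_mul_of_nonneg_right (hC f) (norm_nonneg _)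
  have e2 : 0 ≤ ∫ f, (‖T f‖ - m) ^ 2 ∂ρ := integral_nonneg fun f => sq_nonneg _
  have e3 : ∫ f, (‖T f‖ - m) ^ 2 ∂ρ = (∫ f, ‖T f‖ ^ 2 ∂ρ) - m ^ 2 := by
    have e4 : ∀ f, (‖T f‖ - m) ^ 2 = ‖T f‖ ^ 2 - 2 * m * ‖T f‖ + m ^ 2 := fun f => by ring
    simp_rw [e4]
    have s1 := integral_sub hi2 (hi.const_mul (2 * m))
    have s2 := integral_add (hi2.sub (hi.const_mul (2 * m))) (integrable_const (m ^ 2))
    simp only [Pi.sub_apply] at s2
    rw [s2, s1, integral_const_mul, ← hm]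
    simp only [integral_const, probReal_univ, one_smul]
    ring
  calc ‖∫ f, T f * B f ∂ρ‖ ^ 2 ≤ (C * m) ^ 2 := pow_le_pow_left₀ (norm_nonneg _) e1 2
    _ = C ^ 2 * m ^ 2 := by ring
    _ ≤ C ^ 2 * ∫ f, ‖T f‖ ^ 2 ∂ρ := mul_le_mul_of_nonneg_left (by linarith) (sq_nonneg _)

end gen

theorem abs (h : S_HC) : S_ABS := by
  intro Z _ Q hQ s hs B hB ⟨C, hC⟩ m hm hst her H1 H2 τ₀
  have hZ : Nonempty Z := by
    by_contra hne
    rw [not_nonempty_iff] at hne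
    have h1 := measure_univ (μ := Q)
    rw [Set.univ_eq_empty_iff.2 hne, measure_empty] at h1
    exact zero_ne_one h1
  obtain ⟨z0⟩ := hZ
  have hC0 : 0 ≤ C := (norm_nonneg _).trans (hC 0 z0)
  have hvm : ∀ τ, Measurable fun f : MW => vh f τ := fun τ => val_meas τ
  -- integrability of the products
  have hint : ∀ n τ, Integrable (fun z => E (s n z) τ * B n z) Q := fun n τ =>
    Integrable.of_bound ((E_meas (hs n) τ).mul (hB n)).aestronglyMeasurable C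
      (Eventually.of_forall fun z => by
        rw [norm_mul, E_norm, one_mul]
        exact hC n z)
  have hbd : ∀ n τ, ‖∫ z, E (s n z) τ * B n z ∂Q‖ ≤ C := by
    intro n τ
    refine (norm_integral_le_of_norm_le_const (C := C) (Eventually.of_forall fun z => ?_)).trans ?_
    · rw [norm_mul, E_norm, one_mul]
      exact hC n z
    · rw [probReal_univ, mul_one]
  rw [tendsto_iff_ultrafilter]
  intro g hg
  -- the limits along the ultrafilter
  have hlim : ∀ τ : ℂ →₀ ℝ, ∃ L : ℂ,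
      Tendsto (fun n => ∫ z, E (s n z) τ * B n z ∂Q) g (𝓝 L) := by
    intro τ
    have h1 : (g.map fun n => ∫ z, E (s n z) τ * B n z ∂Q : Filter ℂ) ≤
        𝓟 (Metric.closedBall (0:ℂ) C) := by
      rw [Filter.le_principal_iff, Ultrafilter.coe_map, Filter.mem_map]
      refine Filter.univ_mem' fun n => ?_
      rw [Set.mem_preimage, mem_closedBall_zero_iff]
      exact hbd n τ
    obtain ⟨L, -, hL⟩ := (isCompact_closedBall (0:ℂ) C).ultrafilter_le_nhds _ h1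
    exact ⟨L, hL⟩
  choose L hL using hlim
  have hLs : ∀ τ x, L (τ.mapDomain (· + x)) = L τ := by
    intro τ x
    have h1 := (hL (τ.mapDomain (· + x))).sub (hL τ)
    have h2 := (H2 τ x).mono_left hg
    have h3 : ∀ n, (∫ z, E (s n z) (τ.mapDomain (· + x)) * B n z ∂Q) -
        (∫ z, E (s n z) τ * B n z ∂Q) = ∫ z, (Complex.exp (I * (s n z
          (τ.mapDomain (· + x)) : ℝ)) - Complex.exp (I * (s n z τ : ℝ))) * B n z ∂Q := by
      intro n
      rw [← integral_sub (hint n _) (hint n _)]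
      refine integral_congr_ae (Eventually.of_forall fun z => ?_)
      exact (sub_mul _ _ _).symm
    simp_rw [h3] at h1
    exact sub_eq_zero.1 (tendsto_nhds_unique h1 h2)
  -- the functional
  let ℓ : ((ℂ →₀ ℝ) →₀ ℂ) →ₗ[ℂ] ℂ :=
    { toFun := fun c => c.sum fun τ z => z * L τ
      map_add' := fun c d => Finsupp.sum_add_index' (fun _ => zero_mul _) (fun _ _ _ => add_mul _ _ _)
      map_smul' := fun a c => by
        rw [Finsupp.sum_smul_index' (fun _ => zero_mul _), RingHom.id_apply, smul_eq_mul,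
          Finsupp.mul_sum]
        refine Finsupp.sum_congr fun τ _ => ?_
        rw [smul_eq_mul, mul_assoc] }
  have hℓ : ∀ c, ‖ℓ c‖ ^ 2 ≤ C ^ 2 * ∫ f, ‖trig Y0 c f‖ ^ 2 ∂m := by
    intro c
    have h1 : Tendsto (fun n => ‖∫ z, T c (s n z) * B n z ∂Q‖ ^ 2) g (𝓝 (‖ℓ c‖ ^ 2)) := by
      refine Tendsto.pow (Tendsto.norm ?_) 2
      show Tendsto _ _ (𝓝 (c.sum fun τ z => z * L τ))
      unfold Finsupp.sum
      have e1 : ∀ n, ∫ z, T c (s n z) * B n z ∂Q =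
          ∑ τ ∈ c.support, c τ * ∫ z, E (s n z) τ * B n z ∂Q := by
        intro n
        unfold T Finsupp.sum
        simp_rw [Finset.sum_mul, mul_assoc]
        rw [integral_finsetSum _ fun τ _ => (hint n τ).const_mul _]
        exact Finset.sum_congr rfl fun τ _ => integral_const_mul _ _
      simp_rw [e1]
      exact tendsto_finsetSum _ fun τ _ => (hL _).const_mul _
    have h2 : Tendsto (fun n => C ^ 2 * ∫ z, ‖T c (s n z)‖ ^ 2 ∂Q) g
        (𝓝 (C ^ 2 * ∫ f, ‖T c (vh f)‖ ^ 2 ∂m)) := by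
      refine Tendsto.const_mul _ ?_
      have e1 : Tendsto (fun n => ((∫ z, ‖T c (s n z)‖ ^ 2 ∂Q : ℝ) : ℂ)) atTop
          (𝓝 ((∫ f, ‖T c (vh f)‖ ^ 2 ∂m : ℝ) : ℂ)) := by
        rw [T_sq_int m hvm c]
        simp_rw [fun n => T_sq_int Q (hs n) c]
        exact tendsto_finsetSum _ fun τ _ => tendsto_finsetSum _ fun τ' _ =>
          (H1 (τ - τ')).const_mul _
      have e2 := (Complex.continuous_re.tendsto _).comp e1
      exact e2.mono_left hg
    exact le_of_tendsto_of_tendsto h1 h2 (Eventually.of_forall fun n =>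
      cs Q (T_meas (hs n) c) (hC n) fun z => T_bd c (s n z))
  obtain ⟨k, hk⟩ := riesz' Y0_meas ℓ m hℓ
  have hkm : MemLp (k : MW → ℂ) 2 m := Lp.memLp k
  have hLk : ∀ τ : ℂ →₀ ℝ, L τ = ∫ f, (starRingEnd ℂ) (k f) * eγ τ f ∂m := by
    intro τ
    have h1 := hk (Finsupp.single τ 1)
    rw [inner_toL] at h1
    have h2 : ℓ (Finsupp.single τ 1) = L τ := by
      show (Finsupp.single τ (1:ℂ)).sum (fun τ z => z * L τ) = _
      rw [Finsupp.sum_single_index (zero_mul _), one_mul]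
    rw [← h2, h1]
    rfl
  have hfin := h m hm hst her (k : MW → ℂ) hkm (fun τ x => by
    rw [← hLk, ← hLk]
    exact hLs τ x) τ₀
  rw [← hLk] at hfin
  have hL0 : L 0 = ∫ f, (starRingEnd ℂ) (k f) ∂m := by
    rw [hLk 0]
    refine integral_congr_ae (Eventually.of_forall fun f => ?_)
    show (starRingEnd ℂ) (k f) * eγ 0 f = (starRingEnd ℂ) (k f)
    rw [← E_vh, E_zero, mul_one]
  have hL1 : Tendsto (fun n => ∫ z, B n z ∂Q) g (𝓝 (L 0)) := by
    refine (hL 0).congr fun n => ?_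
    refine integral_congr_ae (Eventually.of_forall fun z => ?_)
    show E (s n z) 0 * B n z = B n z
    rw [E_zero, one_mul]
  have hf2 : Tendsto (fun n => (∫ z, E (s n z) τ₀ * B n z ∂Q) -
      (∫ f, eγ τ₀ f ∂m) * ∫ z, B n z ∂Q) g (𝓝 (L τ₀ - (∫ f, eγ τ₀ f ∂m) * L 0)) :=
    (hL τ₀).sub (hL1.const_mul _)
  have hf3 : L τ₀ - (∫ f, eγ τ₀ f ∂m) * L 0 = 0 := by
    rw [hfin, hL0]
    ring
  rw [hf3] at hf2
  exact hf2

end Pool.Agent.H385.SF
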